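import Pool.Agent.Helper95_PSC.Stmts

set_option autoImplicit false

/-!
Multiplicity one gives the conclusion.
-/

namespace Pool.Agent.PSC.H76

open Pool.Agent.PSC Pool.Agent.Helper40_Pisot MeasureTheory

variable {m : ℕ}

lemma int_ind_eq {G : Type*} [AddCommGroup G] (f g d : ℤ → G) (h0 : f 0 = g 0)
    (hf : ∀ n, f (n + 1) = f n + d n) (hg : ∀ n, g (n + 1) = g n + d n) (n : ℤ) : f n = g n := by
  induction n using Int.induction_on with
  | zero => exact h0
  | succ n ih => rw [hf, hg, ih]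
  | pred n ih =>
    have h1 := hf (-(n : ℤ) - 1)
    have h2 := hg (-(n : ℤ) - 1)
    have e1 : -(n : ℤ) - 1 + 1 = -(n : ℤ) := by ring
    rw [e1] at h1 h2
    rw [h1, h2] at ih
    exact add_right_cancel ih

/-- The indicator of a letter. -/
def ic (b i : Fin (m + 1)) : ℤ := if b = i then 1 else 0

/-- The lattice path of a sequence. -/
noncomputable def V (x : ℤ → Fin (m + 1)) (n : ℤ) : Lat m := fun i =>
  ∑ k ∈ Finset.Ico 0 n, ic (x k) i - ∑ k ∈ Finset.Ico n 0, ic (x k) i

lemma V_zero (x : ℤ → Fin (m + 1)) : V x 0 = 0 := by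
  funext i
  simp [V]

lemma V_succ_apply (x : ℤ → Fin (m + 1)) (n : ℤ) (i : Fin (m + 1)) :
    V x (n + 1) i = V x n i + ic (x n) i := by
  unfold V
  rcases le_or_gt 0 n with hn | hn
  · have h1 : Finset.Ico (n + 1) 0 = ∅ := Finset.Ico_eq_empty (by omega)
    have h2 : Finset.Ico n 0 = ∅ := Finset.Ico_eq_empty (by omega)
    have h3 : Finset.Ico 0 (n + 1) = insert n (Finset.Ico 0 n) := by
      ext t
      simp only [Finset.mem_Ico, Finset.mem_insert]
      omega
    rw [h1, h2, h3, Finset.sum_insert (by simp)]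
    simp
    ring
  · have h1 : Finset.Ico 0 (n + 1) = ∅ := Finset.Ico_eq_empty (by omega)
    have h2 : Finset.Ico 0 n = ∅ := Finset.Ico_eq_empty (by omega)
    have h3 : Finset.Ico n 0 = insert n (Finset.Ico (n + 1) 0) := by
      ext t
      simp only [Finset.mem_Ico, Finset.mem_insert]
      omega
    rw [h1, h2, h3, Finset.sum_insert (by simp)]
    simp

lemma ee_apply (a i : Fin (m + 1)) : ee a i = ic a i := by
  unfold ee ic
  rw [Pi.single_apply]
  by_cases h : a = i
  · rw [if_pos h, if_pos h.symm]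
  · rw [if_neg h, if_neg (fun h' => h h'.symm)]

lemma V_succ (x : ℤ → Fin (m + 1)) (n : ℤ) : V x (n + 1) = V x n + ee (x n) := by
  funext i
  rw [V_succ_apply, Pi.add_apply, ee_apply]

lemma pr_add (α : Fin (m + 1) → ℝ) (u v : Lat m) : pr α (u + v) = pr α u + pr α v := by
  funext i
  simp only [pr, Pi.add_apply, Int.cast_add, Finset.sum_add_distrib]
  ring

lemma sum_ic (a : Fin (m + 1)) : ∑ i, ic a i = 1 := by
  unfold ic
  simp

lemma pr_ee (α : Fin (m + 1) → ℝ) (a : Fin (m + 1)) :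
    pr α (ee a) = fun t : Fin m => fv α a t.castSucc := by
  funext i
  have h1 : ∑ j, ((ee a j : ℤ) : ℝ) = 1 := by
    have h2 := sum_ic a
    have h3 : ((∑ i, ic a i : ℤ) : ℝ) = 1 := by rw [h2]; simp
    rw [← h3]
    push_cast
    exact Finset.sum_congr rfl fun j _ => by rw [ee_apply]
  simp only [pr, fv]
  rw [h1, ee_apply]
  unfold ic
  push_cast
  ring

lemma pr_V (α : Fin (m + 1) → ℝ) (x : ℤ → Fin (m + 1)) (n : ℤ) :
    pr α (V x n) = fun t : Fin m => S α x n t.castSucc := by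
  refine int_ind_eq (fun n => pr α (V x n)) (fun n => fun t : Fin m => S α x n t.castSucc)
    (fun n => fun t : Fin m => fv α (x n) t.castSucc) ?_ ?_ ?_ n
  · funext t
    simp [V_zero, pr]
  · intro n
    rw [V_succ, pr_add, pr_ee]
  · intro n
    funext t
    simp only [Pi.add_apply]
    rw [S_succ]

lemma sum_V (x : ℤ → Fin (m + 1)) (n : ℤ) : ∑ i, V x n i = n := by
  refine int_ind_eq (fun n => ∑ i, V x n i) (fun n => n) (fun _ => 1) ?_ ?_ ?_ n
  · simp [V_zero]
  · intro n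
    have h1 : ∑ i, V x (n + 1) i = ∑ i, V x n i + ∑ i, ic (x n) i := by
      rw [← Finset.sum_add_distrib]
      exact Finset.sum_congr rfl fun i _ => V_succ_apply x n i
    rw [sum_ic] at h1
    exact h1
  · intro n
    rfl

lemma ht_add (l : Fin (m + 1) → ℝ) (u v : Lat m) : ht l (u + v) = ht l u + ht l v := by
  unfold ht
  rw [← Finset.sum_add_distrib]
  refine Finset.sum_congr rfl fun i _ => ?_
  rw [Pi.add_apply]
  push_cast
  ring

lemma ht_ee (l : Fin (m + 1) → ℝ) (a : Fin (m + 1)) : ht l (ee a) = l a := by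
  unfold ht
  simp_rw [ee_apply]
  unfold ic
  simp

lemma ht_V_succ (l : Fin (m + 1) → ℝ) (x : ℤ → Fin (m + 1)) (n : ℤ) :
    ht l (V x (n + 1)) = ht l (V x n) + l (x n) := by
  rw [V_succ, ht_add, ht_ee]

lemma ht_zero (l : Fin (m + 1) → ℝ) : ht l (0 : Lat m) = 0 := by
  simp [ht]

lemma ht_V_nat {l : Fin (m + 1) → ℝ} {c : ℝ} (hc : ∀ i, c ≤ l i) (x : ℤ → Fin (m + 1)) (n : ℕ) :
    c * n ≤ ht l (V x n) := by
  induction n with
  | zero => simp [V_zero, ht_zero]
  | succ n ih =>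
    push_cast
    rw [ht_V_succ]
    have := hc (x n)
    linarith

lemma ht_V_neg {l : Fin (m + 1) → ℝ} {c : ℝ} (hc : ∀ i, c ≤ l i) (x : ℤ → Fin (m + 1)) (n : ℕ) :
    ht l (V x (-(n : ℤ))) ≤ -(c * n) := by
  induction n with
  | zero => simp [V_zero, ht_zero]
  | succ n ih =>
    have h1 := ht_V_succ l x (-((n + 1 : ℕ) : ℤ))
    have e1 : -((n + 1 : ℕ) : ℤ) + 1 = -(n : ℤ) := by push_cast; ring
    rw [e1] at h1
    have := hc (x (-((n + 1 : ℕ) : ℤ)))
    push_cast at *
    linarith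

/-- Every strand has an alive face. -/
lemma exists_alive {l : Fin (m + 1) → ℝ} (hl : ∀ i, 0 < l i) (x : ℤ → Fin (m + 1)) (v : Lat m)
    (t : ℝ) : ∃ n : ℤ, Alive l t (v + V x n, x n) := by
  obtain ⟨i0, hi0⟩ := Finite.exists_min l
  have hc0 := hl i0
  obtain ⟨A, hA⟩ := exists_nat_gt (|t - ht l v| / l i0)
  have hA' : |t - ht l v| < l i0 * A := by
    rw [div_lt_iff₀ hc0] at hA
    linarith [mul_comm (A : ℝ) (l i0)]
  have hA2 := abs_lt.1 hA'
  have hmono : ∀ n : ℤ, ht l (V x n) ≤ ht l (V x (n + 1)) := by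
    intro n
    rw [ht_V_succ]
    linarith [hl (x n)]
  have hmono2 : Monotone (fun n : ℤ => ht l (V x n)) := monotone_int_of_le_succ hmono
  have hbdd : ∃ b : ℤ, ∀ z : ℤ, ht l v + ht l (V x z) ≤ t → z ≤ b := by
    refine ⟨A, fun z hz => ?_⟩
    by_contra hlt
    push Not at hlt
    have h1 := hmono2 hlt.le
    have h2 := ht_V_nat hi0 x A
    simp only at h1
    linarith [hA2.2]
  have hinh : ∃ z : ℤ, ht l v + ht l (V x z) ≤ t := by
    refine ⟨-(A : ℤ), ?_⟩
    have h2 := ht_V_neg hi0 x A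
    linarith [hA2.1]
  obtain ⟨n, hn, hn2⟩ := Int.exists_greatest_of_bdd hbdd hinh
  refine ⟨n, ?_, ?_⟩
  · simp only
    rw [ht_add]
    exact hn
  · simp only
    rw [ht_add]
    by_contra hlt
    push Not at hlt
    have := hn2 (n + 1) (by rw [ht_V_succ]; linarith)
    omega

lemma ph_sh {σ : Fin (m + 1) → List (Fin (m + 1))} {α : Fin (m + 1) → ℝ} {C : ℝ}
    (hC : ∀ w, Lang σ w → ∀ i, |disc α w i| ≤ C) {x : ℤ → Fin (m + 1)} (hx : InX σ x) (n : ℤ) :
    ph α (sh n x) = ph α x + pr α (V x n) := by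
  funext t
  rw [pr_V, Pi.add_apply]
  exact phi_shift hC hx n t.castSucc

lemma mem_tile {σ : Fin (m + 1) → List (Fin (m + 1))} {α : Fin (m + 1) → ℝ} {C : ℝ}
    (hC : ∀ w, Lang σ w → ∀ i, |disc α w i| ≤ C) (x0 : ℤ → Fin (m + 1))
    {x : ℤ → Fin (m + 1)} (hx : InX σ x) (v : Lat m) (n : ℤ) :
    pr α v + ph α x0 - ph α x ∈ tile σ α x0 (v + V x n, x n) := by
  refine ⟨ph α (sh n x), ⟨sh n x, ⟨hx.sh n, ?_⟩, rfl⟩, ?_⟩
  · simp [sh]
  · simp only
    rw [ph_sh hC hx, pr_add]
    funext t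
    simp only [Pi.add_apply, Pi.sub_apply]
    ring

/-- The section of the projection to the torus. -/
noncomputable def sec (y : Fin m → UnitAddCircle) : E m :=
  fun i => ((AddCircle.measurableEquivIoc (1 : ℝ) 0 (y i) : Set.Ioc (0 : ℝ) (0 + 1)) : ℝ)

lemma measurable_sec : Measurable (sec : (Fin m → UnitAddCircle) → E m) := by
  refine measurable_pi_lambda _ fun i => ?_
  exact measurable_subtype_coe.comp
    ((AddCircle.measurableEquivIoc (1 : ℝ) 0).measurable.comp (measurable_pi_apply i))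

lemma qT_sec (y : Fin m → UnitAddCircle) : qT (sec y) = y := by
  funext i
  exact (AddCircle.equivIoc (1 : ℝ) 0).symm_apply_apply (y i)

lemma sec_qT {w : E m} (hw : ∀ i, w i ∈ Set.Ioc (0 : ℝ) (0 + 1)) : sec (qT w) = w := by
  funext i
  have h := (AddCircle.equivIoc (1 : ℝ) 0).apply_symm_apply ⟨w i, hw i⟩
  exact congrArg Subtype.val h

lemma null_sec {Z : Set (E m)} (hZ : MeasurableSet Z) (h0 : volume Z = 0) :
    volume (sec ⁻¹' Z) = 0 := by
  have hm : MeasurableSet (sec ⁻¹' Z) := measurable_sec hZ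
  rw [← measurePreserving_qT.measure_preimage hm.nullMeasurableSet, ← Measure.restrict_pi_pi]
  have hm2 : MeasurableSet (qT ⁻¹' (sec ⁻¹' Z)) := continuous_qT.measurable hm
  rw [Measure.restrict_apply hm2]
  refine measure_mono_null ?_ h0
  rintro w ⟨hw1, hw2⟩
  have h1 : sec (qT w) = w := sec_qT (fun i => hw2 i (Set.mem_univ i))
  have h2 : sec (qT w) ∈ Z := hw1
  rw [h1] at h2
  exact h2

/-- Multiplicity one gives the conclusion. -/
theorem fin : FinStmt := by
  intro m σ M r α l a0 x0 D hMult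
  have hpf := D.pf
  have hM := D.inc
  have hσ := D.ne
  have hF := D.fix
  have hx0 : InX σ x0 := hF.inX
  have hp := prim_of_pf hM hpf
  obtain ⟨C, hC0, hC⟩ := disc_lang_bound hM hpf
  have hcont : ContinuousOn (piT α) {x : ℤ → Fin (m + 1) | InX σ x} := by
    have h3 := continuousOn_phi hσ hp hC
    have h4 : ContinuousOn (ph α) {x : ℤ → Fin (m + 1) | InX σ x} := by
      rw [continuousOn_pi] at h3 ⊢
      intro j
      exact h3 j.castSucc
    exact continuous_qT.comp_continuousOn h4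
  have hdense := fun y => dense_orbit hpf y
  have hsurj : piT α '' {x : ℤ → Fin (m + 1) | InX σ x} = Set.univ := by
    have hcl : IsClosed (piT α '' {x : ℤ → Fin (m + 1) | InX σ x}) :=
      ((isCompact_X σ).image_of_continuousOn hcont).isClosed
    have hd2 : Dense (piT α '' {x : ℤ → Fin (m + 1) | InX σ x}) := by
      refine (hdense (piT α x0)).mono ?_
      rintro _ ⟨n, rfl⟩
      exact ⟨sh n x0, hx0.sh n, piT_sh hC hx0 n⟩
    rw [← hcl.closure_eq]
    exact hd2.closure_eq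
  refine ⟨m, gam α, hdense, piT α, hcont, hsurj, ?_, ?_⟩
  · intro x hx
    have := piT_sh hC hx 1
    rw [one_zsmul] at this
    exact this
  -- the exceptional set
  obtain ⟨Q, hQ⟩ : ∃ Q : E m → Prop, Q = fun w => ∀ (b : Fin m → ℤ) (u : Lat m),
      Set.ncard {F : Face m | Alive l (ht l u) F ∧
        ph α x0 - (w + fun i => (b i : ℝ)) ∈ tile σ α x0 F} = 1 := ⟨_, rfl⟩
  have hae : ∀ᵐ w ∂(volume : Measure (E m)), Q w := by
    rw [hQ, ae_all_iff]
    intro b
    rw [ae_all_iff]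
    intro u
    have h1 := hMult (ht l u)
    have h2 := (Measure.measurePreserving_sub_left (volume : Measure (E m))
      (ph α x0 - fun i => (b i : ℝ))).quasiMeasurePreserving.ae h1
    filter_upwards [h2] with w hw
    have e : ph α x0 - (w + fun i => (b i : ℝ)) = (ph α x0 - fun i => (b i : ℝ)) - w := by
      abel
    rw [e]
    exact hw
  obtain ⟨Z, hZsub, hZm, hZ0⟩ := exists_measurable_superset_of_null hae
  refine ⟨sec ⁻¹' Z, null_sec hZm hZ0, ?_⟩
  intro y hy
  have hQy : Q (sec y) := by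
    by_contra hn
    exact hy (hZsub hn)
  obtain ⟨x, hx, hxy⟩ : y ∈ piT α '' {x : ℤ → Fin (m + 1) | InX σ x} := by
    rw [hsurj]; trivial
  refine ⟨x, ⟨hx, hxy⟩, ?_⟩
  rintro x' ⟨hx', hxy'⟩
  have hx1 : InX σ x := hx
  have hx1' : InX σ x' := hx'
  have hb : ∀ i, ∃ k : ℤ, ph α x i - sec y i = k := by
    intro i
    rw [← coe_eq_coe_iff]
    have h1 : qT (ph α x) i = qT (sec y) i := by
      rw [qT_sec]
      exact congrFun hxy i
    exact h1
  choose b hb using hb
  have hb' : ∀ i, ∃ k : ℤ, ph α x i - ph α x' i = k := by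
    intro i
    rw [← coe_eq_coe_iff]
    have h1 : qT (ph α x) i = qT (ph α x') i := by
      have h2 : piT α x = piT α x' := by rw [hxy, hxy']
      exact congrFun h2 i
    exact h1
  choose b' hb' using hb'
  have hphx : ph α x = sec y + fun i => (b i : ℝ) := by
    funext i
    rw [Pi.add_apply, ← hb i]
    ring
  have hone : ∀ u : Lat m, Set.ncard {F : Face m | Alive l (ht l u) F ∧
      ph α x0 - ph α x ∈ tile σ α x0 F} = 1 := by
    intro u
    rw [hQ] at hQy
    have := hQy b u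
    rw [← hphx] at this
    exact this
  -- the lattice vector
  obtain ⟨v', hv'⟩ : ∃ v' : Lat m, v' = Fin.snoc (fun i => - b' i) (∑ i, b' i) := ⟨_, rfl⟩
  have hv'c : ∀ i : Fin m, v' i.castSucc = - b' i := by
    intro i
    rw [hv', Fin.snoc_castSucc]
  have hv'l : v' (Fin.last m) = ∑ i, b' i := by
    rw [hv', Fin.snoc_last]
  have hv'sum : ∑ i, v' i = 0 := by
    rw [Fin.sum_univ_castSucc, hv'l]
    simp_rw [hv'c]
    rw [Finset.sum_neg_distrib]
    ring
  have hprv : pr α v' + ph α x0 - ph α x' = ph α x0 - ph α x := by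
    funext i
    have h1 : ∑ j, ((v' j : ℤ) : ℝ) = 0 := by
      have h2 : ((∑ i, v' i : ℤ) : ℝ) = 0 := by rw [hv'sum]; simp
      rw [← h2]
      push_cast
      rfl
    simp only [pr, Pi.add_apply, Pi.sub_apply]
    rw [h1, hv'c]
    have := hb' i
    push_cast
    linarith
  funext n
  symm
  obtain ⟨F0, hF0⟩ := Set.ncard_eq_one.1 (hone (V x n))
  have hF1 : ((V x n, x n) : Face m) ∈ {F : Face m | Alive l (ht l (V x n)) F ∧
      ph α x0 - ph α x ∈ tile σ α x0 F} := by
    refine ⟨⟨le_rfl, ?_⟩, ?_⟩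
    · simp only
      linarith [hpf.l_pos (x n)]
    · have h1 := mem_tile hC x0 hx1 0 n
      have h2 : pr α (0 : Lat m) + ph α x0 - ph α x = ph α x0 - ph α x := by
        funext i
        simp [pr]
      rw [h2, zero_add] at h1
      exact h1
  obtain ⟨n', hn'⟩ := exists_alive hpf.l_pos x' v' (ht l (V x n))
  have hF2 : ((v' + V x' n', x' n') : Face m) ∈ {F : Face m | Alive l (ht l (V x n)) F ∧
      ph α x0 - ph α x ∈ tile σ α x0 F} := by
    refine ⟨hn', ?_⟩
    have h1 := mem_tile hC x0 hx1' v' n'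
    rw [hprv] at h1
    exact h1
  rw [hF0, Set.mem_singleton_iff] at hF1 hF2
  have hEq : ((V x n, x n) : Face m) = (v' + V x' n', x' n') := by rw [hF1, hF2]
  have hE1 : V x n = v' + V x' n' := congrArg Prod.fst hEq
  have hE2 : x n = x' n' := congrArg Prod.snd hEq
  have hnn : n = n' := by
    rw [← sum_V x n, hE1]
    simp only [Pi.add_apply]
    rw [Finset.sum_add_distrib, hv'sum, sum_V, zero_add]
  rw [← hnn] at hE2
  exact hE2

end Pool.Agent.PSC.H76
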